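import Pool.Agent.H93.HQ.Targets

namespace Pool.Agent.H42.HQ
open MeasureTheory Set Filter Topology Pool.Agent.H80.HS Pool.Agent.H93.HQ
open scoped ContDiff ENNReal

/-- The kernel near the origin. -/
theorem pf_K1 (h : U_POL) : U_K1 := by
  intro n hn p ρ hp hρ
  set f : ℝ → ℝ≥0∞ :=
    (Iio ρ).indicator (fun r => ENNReal.ofReal (r ^ (-(2 * (n : ℝ) + 1)))) with hf
  have hfm : Measurable f := by
    refine Measurable.indicator ?_ measurableSet_Iio
    fun_prop
  have h1 := h n hn (p - 1) (by linarith) f hfm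
  have hS : MeasurableSet {x : H n | N x < ρ} :=
    (isOpen_lt continuous_N continuous_const).measurableSet
  have h2 : ∫⁻ x : H n in {x | N x < ρ}, ENNReal.ofReal (Pool.Agent.H93.HQ.ker p x) =
      ∫⁻ x : H n, ENNReal.ofReal (al x ^ (p - 1)) * f (N x) := by
    rw [← lintegral_indicator hS]
    refine lintegral_congr fun x => ?_
    by_cases hx : N x < ρ
    · rw [Set.indicator_of_mem (show x ∈ {x : H n | N x < ρ} from hx), hf,
        Set.indicator_of_mem (show N x ∈ Iio ρ from hx), Pool.Agent.H93.HQ.ker, mul_comm,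
        ENNReal.ofReal_mul (Real.rpow_nonneg (al_nonneg x) _)]
    · rw [Set.indicator_of_notMem (show x ∉ {x : H n | N x < ρ} from hx), hf,
        Set.indicator_of_notMem (show N x ∉ Iio ρ from hx), mul_zero]
  have h3 : ∫⁻ r in Ioi (0 : ℝ), f r * ENNReal.ofReal (r ^ (2 * (n : ℝ) + 1)) =
      ENNReal.ofReal ρ := by
    have h4 : ∫⁻ r in Ioi (0 : ℝ), f r * ENNReal.ofReal (r ^ (2 * (n : ℝ) + 1)) =
        ∫⁻ r in Ioi (0 : ℝ), (Iio ρ).indicator (fun _ => (1 : ℝ≥0∞)) r := by
      refine setLIntegral_congr_fun measurableSet_Ioi fun r hr => ?_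
      have hr' : (0 : ℝ) < r := hr
      by_cases hx : r < ρ
      · simp only [hf]
        rw [Set.indicator_of_mem (show r ∈ Iio ρ from hx),
          Set.indicator_of_mem (show r ∈ Iio ρ from hx),
          ← ENNReal.ofReal_mul (Real.rpow_nonneg hr'.le _), ← Real.rpow_add hr']
        simp
      · simp only [hf]
        rw [Set.indicator_of_notMem (show r ∉ Iio ρ from hx),
          Set.indicator_of_notMem (show r ∉ Iio ρ from hx), zero_mul]
    rw [h4, lintegral_indicator measurableSet_Iio, Measure.restrict_restrict measurableSet_Iio,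
      setLIntegral_const, one_mul, Set.Iio_inter_Ioi, Real.volume_Ioo, sub_zero]
  rw [h2, h1, h3, ← ENNReal.ofReal_mul (sg_pos hn (by linarith)).le]

end Pool.Agent.H42.HQ
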